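import Pool.Agent.H21.Metal2

namespace Pool.Agent.Results.MP_17359d_gt.BoundedFibres

open Set Pool.Agent.H21.Metal

theorem result (X Y : Type) [TopologicalSpace X] [TopologicalSpace Y] (f : X → Y)
    (hc : Continuous f) (hf : IsClosedMap f) (hs : Function.Surjective f) (hX : DeltaTheta X)
    (m : ℕ) (h : ∀ y, (f ⁻¹' {y}).Finite ∧ (f ⁻¹' {y}).ncard ≤ m) : DeltaTheta Y :=
  bounded_to_one hc hf hs (fun y => (h y).1) m (fun y => (h y).2) hX

end Pool.Agent.Results.MP_17359d_gt.BoundedFibres
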